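import Pool.Agent.H59R3.M17.E6
import Pool.Agent.H59R3.M17.Count

set_option autoImplicit false

open Set Filter Topology UpperHalfPlane MeasureTheory
open Pool.Agent.H59R3.M17

namespace Pool.Agent.Results.MP_17f4cb_nt.AllTwistsVanish

/-- odd automorphic functions have vanishing constant term -/
lemma constant_term {f : ℍ → ℂ} {lam : ℝ} {a : ℕ → ℂ} (h : OddMaass f lam a) {y : ℝ} (hy : 0 < y) :
    ∫ x in (0 : ℝ)..1, f (pt x y) = 0 := by
  have hper : ∀ x : ℝ, f (pt (x + 1) y) = f (pt x y) := by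
    intro x
    have := periodic_nat h.modular x hy 1
    simpa using this
  have h1 : ∫ x in (0 : ℝ)..1, f (pt (1 - x) y) = ∫ x in (0 : ℝ)..1, f (pt x y) := by
    have := intervalIntegral.integral_comp_sub_left (a := 0) (b := 1) (fun x => f (pt x y)) 1
    simpa using this
  have h2 : ∀ x : ℝ, f (pt (1 - x) y) = - f (pt x y) := by
    intro x
    have h3 := hper (-x)
    rw [h.odd x y hy] at h3
    rw [← h3]
    congr 2
    ring
  simp only [h2, intervalIntegral.integral_neg] at h1
  have h4 : (2 : ℂ) * ∫ x in (0 : ℝ)..1, f (pt x y) = 0 := by linear_combination - h1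
  exact (mul_eq_zero.mp h4).resolve_left two_ne_zero

/-- **Disproof of Q1.** Odd Hecke–Maass cusp forms of level one exist, and for each of them the
central values of all twists by characters of quadratic fields vanish; so the proportion of
quadratic fields with nonvanishing central value is `0` for all `x`, and does not tend to `1/2`. -/
theorem result :
    (∃ (f : ℍ → ℂ) (lam : ℝ) (a : ℕ → ℂ), OddMaass f lam a) ∧
    (∀ x : ℝ, {c : QChar | (c.q : ℝ) < x}.Finite) ∧
    Tendsto Ncount atTop atTop ∧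
    ∀ (f : ℍ → ℂ) (lam : ℝ) (a : ℕ → ℂ), OddMaass f lam a →
      (∀ y : ℝ, 0 < y → ∫ x in (0 : ℝ)..1, f (pt x y) = 0) ∧
      (∀ c : QChar, IsCentralValue (fun n => a n * c.χ n) 0) ∧
      (∀ (c : QChar) (v : ℂ), IsCentralValue (fun n => a n * c.χ n) v → v = 0) ∧
      (∀ x : ℝ, Nnonvan a x = 0) ∧
      Tendsto (fun x : ℝ => (Nnonvan a x : ℝ) / (Ncount x : ℝ)) atTop (𝓝 0) ∧
      ¬ Tendsto (fun x : ℝ => (Nnonvan a x : ℝ) / (Ncount x : ℝ)) atTop (𝓝 (1 / 2)) := by
  refine ⟨exists_oddMaass, QChar.finite, Ncount_tendsto, fun f lam a h => ?_⟩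
  have h1 : ∀ c : QChar, IsCentralValue (fun n => a n * c.χ n) 0 := by
    intro c
    have : NeZero c.q := ⟨c.pos.ne'⟩
    exact h.central c.prim c.sq
  have h2 : ∀ (c : QChar) (v : ℂ), IsCentralValue (fun n => a n * c.χ n) v → v = 0 :=
    fun c v hv => hv.unique (h1 c)
  have h3 : ∀ x : ℝ, Nnonvan a x = 0 := by
    intro x
    have : {c : QChar | (c.q : ℝ) < x ∧ ∃ v : ℂ, v ≠ 0 ∧ IsCentralValue (fun n => a n * c.χ n) v} = ∅ := by
      ext c
      simp only [mem_setOf_eq, mem_empty_iff_false, iff_false, not_and, not_exists]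
      intro _ v hv hc
      exact hv (h2 c v hc)
    rw [Nnonvan, this, Set.ncard_empty]
  have h4 : Tendsto (fun x : ℝ => (Nnonvan a x : ℝ) / (Ncount x : ℝ)) atTop (𝓝 0) := by
    simp only [h3, Nat.cast_zero, zero_div]
    exact tendsto_const_nhds
  refine ⟨fun y hy => constant_term h hy, h1, h2, h3, h4, fun h5 => ?_⟩
  have h6 := tendsto_nhds_unique h4 h5
  norm_num at h6

end Pool.Agent.Results.MP_17f4cb_nt.AllTwistsVanish
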